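import Pool.Agent.H516.PCF.All

/-! PCF CONJN (helper415, for helper516): change of coordinate and iterates. -/

set_option autoImplicit false

namespace Pool.Agent.H415.PCF

open Polynomial
open Pool.Agent.H516.PCF

/-- one step of the iteration -/
theorem step (hEVAL : S_EVAL) {k : Type} [Field k] {d : ℕ} {P Q : k[X]} (h : Nrm d P Q) {n : ℕ}
    {x : k} (hn : (qn d P Q n).eval x ≠ 0) :
    (qn d P Q (n + 1)).eval x = (qn d P Q n).eval x ^ d * Q.eval (fn d P Q n x) ∧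
    fn d P Q (n + 1) x = P.eval (fn d P Q n x) / Q.eval (fn d P Q n x) ∧
    dn d P Q (n + 1) x = (wr P Q).eval (fn d P Q n x) / Q.eval (fn d P Q n x) ^ 2 *
      dn d P Q n x := by
  obtain ⟨h1, h2, h3⟩ := (hEVAL k d P Q h n x).1 hn
  have hpow : (qn d P Q n).eval x ^ d ≠ 0 := pow_ne_zero d hn
  have h2d : 2 * d = (2 * d - 2) + 2 := by have := h.two_le; omega
  refine ⟨h2, ?_, ?_⟩
  · rw [fn, h1, h2, mul_div_mul_left _ _ hpow]
  · rw [dn, h3, h2, dn]
    generalize (wr P Q).eval (fn d P Q n x) = a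
    generalize Q.eval (fn d P Q n x) = b
    generalize (wr (pn d P Q n) (qn d P Q n)).eval x = c
    generalize hz : (qn d P Q n).eval x = z at *
    have hzz : (z ^ d) ^ 2 = z ^ (2 * d - 2) * z ^ 2 := by
      rw [← pow_mul, mul_comm d 2, ← pow_add, ← h2d]
    have hz1 : z ^ (2 * d - 2) ≠ 0 := pow_ne_zero _ hn
    rw [mul_pow, hzz, div_mul_div_comm]
    rw [show z ^ (2 * d - 2) * a * c = z ^ (2 * d - 2) * (a * c) by ring,
      show z ^ (2 * d - 2) * z ^ 2 * b ^ 2 = z ^ (2 * d - 2) * (b ^ 2 * z ^ 2) by ring,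
      mul_div_mul_left _ _ hz1]

theorem conjn (hEVAL : S_EVAL) (hCONJ : S_CONJ) : S_CONJN := by
  intro k _ _ d P Q q h hq n
  have hd := h.two_le
  have hrat : IsRat d P Q := ⟨h.two_le, h.cop, by rw [h.degP]; exact max_eq_left h.degQ.le⟩
  have hQq : Q.eval q ≠ 0 := by
    intro h0
    obtain ⟨u, v, huv⟩ := h.cop
    have h1 := congrArg (Polynomial.eval q) huv
    rw [eval_add, eval_mul, eval_mul, hq, h0, mul_zero, mul_zero, mul_zero, add_zero, eval_one] at h1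
    exact zero_ne_one h1
  obtain ⟨hN', -, -, hev, -⟩ := hCONJ k d P Q q hrat hq hQq
  induction n with
  | zero =>
    intro x hx _ _
    have h0 : x - q ≠ 0 := sub_ne_zero.2 hx
    refine ⟨by simp [qn, it], by simp [fn, pn, qn, it], ?_⟩
    simp only [dn, fn, pn, qn, it, wr, derivative_X, derivative_one, eval_sub, eval_mul, eval_one,
      eval_X, eval_zero, mul_one, mul_zero, sub_zero, one_pow, div_one, one_mul]
    rw [div_self (pow_ne_zero 2 h0)]
  | succ n ih =>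
    intro x hx hqn hfn
    have hqn0 : (qn d P Q n).eval x ≠ 0 := fun h0 => hqn ((hEVAL k d P Q h n x).2 h0).1
    obtain ⟨s1, s2, s3⟩ := step hEVAL h hqn0
    obtain ⟨g, hg⟩ : ∃ g, g = fn d P Q n x := ⟨_, rfl⟩
    rw [← hg] at s1 s2 s3
    have hQg : Q.eval g ≠ 0 := by
      intro h0
      rw [h0, mul_zero] at s1
      exact hqn s1
    have hgq : g ≠ q := by
      intro h0
      rw [h0, hq, mul_div_assoc, div_self hQq, mul_one] at s2
      exact hfn s2
    obtain ⟨i1, i2, i3⟩ := ih x hx hqn0 (by rw [← hg]; exact hgq)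
    rw [← hg] at i2 i3
    have hgq0 : g - q ≠ 0 := sub_ne_zero.2 hgq
    obtain ⟨e1, e2, e3⟩ := hev (g - q)⁻¹ (inv_ne_zero hgq0)
    rw [inv_inv, show q + (g - q) = g by ring] at e1 e2 e3
    obtain ⟨t1, t2, t3⟩ := step hEVAL hN' i1
    rw [i2] at t1 t2 t3
    have hW : P.eval g - q * Q.eval g ≠ 0 := by
      intro h0
      apply hfn
      rw [s2, div_eq_iff hQg]
      exact sub_eq_zero.1 h0
    have hpd : (g - q)⁻¹ ^ d ≠ 0 := pow_ne_zero d (inv_ne_zero hgq0)
    have hfq : fn d P Q (n + 1) x - q = (P.eval g - q * Q.eval g) / Q.eval g := by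
      rw [s2]
      field_simp
    refine ⟨?_, ?_, ?_⟩
    · rw [t1, e2]
      exact mul_ne_zero (pow_ne_zero d i1) (mul_ne_zero hpd hW)
    · rw [t2, e1, e2, mul_div_mul_left _ _ hpd, hfq, inv_div]
    · rw [t3, e2, e3, i3, s3, hfq]
      have h2d : 2 * d = (2 * d - 2) + 2 := by omega
      have hz1 : (g - q)⁻¹ ^ (2 * d - 2) ≠ 0 := pow_ne_zero _ (inv_ne_zero hgq0)
      have hzz : ((g - q)⁻¹ ^ d) ^ 2 = (g - q)⁻¹ ^ (2 * d - 2) * (g - q)⁻¹ ^ 2 := by
        rw [← pow_mul, mul_comm d 2, ← pow_add, ← h2d]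
      rw [mul_pow, hzz]
      rw [show (g - q)⁻¹ ^ (2 * d - 2) * (g - q)⁻¹ ^ 2 * (P.eval g - q * Q.eval g) ^ 2 =
        (g - q)⁻¹ ^ (2 * d - 2) * ((g - q)⁻¹ ^ 2 * (P.eval g - q * Q.eval g) ^ 2) by ring,
        mul_div_mul_left _ _ hz1]
      field_simp

end Pool.Agent.H415.PCF
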